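import Pool.Agent.H639Z.OP.Basic

set_option autoImplicit false
open MeasureTheory Filter Topology
open scoped ENNReal

namespace Pool.Agent.H639Z.OP

variable {d : ℕ}

namespace Weak

theorem hilbert {E : Type} [NormedAddCommGroup E] [InnerProductSpace ℝ E] [CompleteSpace E]
    [TopologicalSpace.SeparableSpace E] (u : ℕ → E) {R : ℝ} (hR : ∀ n, ‖u n‖ ≤ R) :
    ∃ φ : ℕ → ℕ, StrictMono φ ∧ ∃ v : E, ∀ w : E,
      Tendsto (fun n => inner ℝ (u (φ n)) w) atTop (𝓝 (inner ℝ v w)) := by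
  obtain ⟨l, -, φ, hφ, hl⟩ := WeakDual.isSeqCompact_closedBall ℝ E (0 : StrongDual ℝ E) R
    (x := fun n => StrongDual.toWeakDual (InnerProductSpace.toDual ℝ E (u n))) (fun n => by
      simpa using hR n)
  refine ⟨φ, hφ, (InnerProductSpace.toDual ℝ E).symm (WeakDual.toStrongDual l), fun w => ?_⟩
  rw [InnerProductSpace.toDual_symm_apply]
  exact ((WeakDual.eval_continuous w).tendsto l).comp hl

theorem inner_toLp {a b : X d → ℝ} (ha : MemLp a 2 volume) (hb : MemLp b 2 volume) :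
    inner ℝ (ha.toLp a) (hb.toLp b) = ∫ x, a x * b x := by
  rw [L2.inner_def]
  refine integral_congr_ae ?_
  filter_upwards [ha.coeFn_toLp, hb.coeFn_toLp] with x h1 h2
  rw [h1, h2]
  simp [mul_comm]

theorem single (a : ℕ → X d → ℝ) (ha : ∀ n, MemLp (a n) 2 volume)
    {C : ℝ} (hC : ∀ n, ∫ x, a n x * a n x ≤ C) :
    ∃ φ : ℕ → ℕ, StrictMono φ ∧ ∃ b : X d → ℝ, Measurable b ∧ MemLp b 2 volume ∧
      WConv (fun n => a (φ n)) b := by
  haveI : Fact ((2 : ℝ≥0∞) ≠ ⊤) := ⟨by simp⟩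
  obtain ⟨φ, hφ, v, hv⟩ := hilbert (fun n => (ha n).toLp (a n)) (R := Real.sqrt C) (fun n => by
    apply Real.le_sqrt_of_sq_le
    rw [← real_inner_self_eq_norm_sq, inner_toLp]
    exact hC n)
  refine ⟨φ, hφ, v, (Lp.stronglyMeasurable v).measurable, Lp.memLp v, fun ψ hψ => ?_⟩
  have := hv (hψ.toLp ψ)
  simp only [inner_toLp] at this
  rwa [← inner_toLp (Lp.memLp v) hψ, Lp.toLp_coeFn]

end Weak

theorem weak_cpt {ι : Type} [Fintype ι] (a : ι → ℕ → X d → ℝ) (ha : ∀ j n, MemLp (a j n) 2 volume)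
    {C : ℝ} (hC : ∀ j n, ∫ x, a j n x * a j n x ≤ C) :
    ∃ φ : ℕ → ℕ, StrictMono φ ∧ ∃ b : ι → X d → ℝ, ∀ j, Measurable (b j) ∧ MemLp (b j) 2 volume ∧
      WConv (fun n => a j (φ n)) (b j) := by
  classical
  have key : ∀ s : Finset ι, ∃ φ : ℕ → ℕ, StrictMono φ ∧ ∀ j ∈ s, ∃ b : X d → ℝ,
      Measurable b ∧ MemLp b 2 volume ∧ WConv (fun n => a j (φ n)) b := by
    intro s
    induction s using Finset.induction_on with
    | empty => exact ⟨id, strictMono_id, by simp⟩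
    | insert i s _ ih =>
      obtain ⟨φ, hφ, h⟩ := ih
      obtain ⟨χ, hχ, hb⟩ := Weak.single (fun n => a i (φ n)) (fun n => ha i _) (fun n => hC i _)
      refine ⟨φ ∘ χ, hφ.comp hχ, fun j hj => ?_⟩
      rcases Finset.mem_insert.1 hj with rfl | hj
      · exact hb
      · obtain ⟨b, h1, h2, h3⟩ := h j hj
        exact ⟨b, h1, h2, fun ψ hψ => (h3 ψ hψ).comp hχ.tendsto_atTop⟩
  obtain ⟨φ, hφ, h⟩ := key Finset.univ
  choose b hb using fun j => h j (Finset.mem_univ j)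
  exact ⟨φ, hφ, b, hb⟩

theorem weak_lsc {a : ℕ → X d → ℝ} {b : X d → ℝ} (ha : ∀ n, MemLp (a n) 2 volume)
    (hb : MemLp b 2 volume) (hw : WConv a b) {A : ℝ} (hA : A < ∫ x, b x * b x) :
    ∀ᶠ n in atTop, A < ∫ x, a n x * a n x := by
  have h1 : Tendsto (fun n => 2 * (∫ x, a n x * b x) - ∫ x, b x * b x) atTop
      (𝓝 (2 * (∫ x, b x * b x) - ∫ x, b x * b x)) := ((hw b hb).const_mul 2).sub_const _
  filter_upwards [h1.eventually (lt_mem_nhds (show A < _ by linarith))] with n hn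
  refine hn.trans_le ?_
  rw [← integral_const_mul, ← integral_sub ((int_mul (ha n) hb).const_mul 2) (int_mul hb hb)]
  refine integral_mono (((int_mul (ha n) hb).const_mul 2).sub (int_mul hb hb))
    (int_mul (ha n) (ha n)) fun x => ?_
  simp only
  nlinarith [sq_nonneg (a n x - b x)]

theorem weak_ind {a : ℕ → X d → ℝ} {b : X d → ℝ} (hw : WConv a b) {K : Set (X d)}
    (hK : MeasurableSet K) (hz : ∀ n, ∀ᵐ x ∂volume, x ∉ K → a n x = 0) :
    WConv a (K.indicator b) := by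
  intro ψ hψ
  have h := hw (K.indicator ψ) (hψ.indicator hK)
  have e1 : ∀ n, ∫ x, a n x * K.indicator ψ x = ∫ x, a n x * ψ x := by
    intro n
    refine integral_congr_ae ?_
    filter_upwards [hz n] with x hx
    by_cases hxK : x ∈ K
    · simp [hxK]
    · simp [hxK, hx hxK]
  have e2 : ∫ x, b x * K.indicator ψ x = ∫ x, K.indicator b x * ψ x := by
    refine integral_congr_ae (Eventually.of_forall fun x => ?_)
    by_cases hxK : x ∈ K <;> simp [hxK]
  simpa only [e1, e2] using h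

end Pool.Agent.H639Z.OP
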